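import Pool.Agent.EGF.StmtsV

/-!
EGF, row CLQ: all scales.
-/

set_option autoImplicit false

open Finset

namespace Pool.Agent.EGF.H47

open Pool.Agent.EGF

private lemma pal_mono_clq {V : Type} [DecidableEq V] {k : ℕ} (c : V → V → Fin k) {S T : Finset V}
    (h : S ⊆ T) : pal c S ⊆ pal c T := by
  unfold pal
  apply image_subset_image
  intro p hp
  rw [mem_filter, mem_product] at hp ⊢
  exact ⟨⟨h hp.1.1, h hp.1.2⟩, hp.2⟩

private lemma card16_clq {n : ℕ} (h : 3 ≤ Real.log (n : ℝ)) : 16 ≤ n ∧ 0 < n := by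
  have hn : 0 < n := by
    rcases Nat.eq_zero_or_pos n with h0 | h0
    · rw [h0, Nat.cast_zero, Real.log_zero] at h
      norm_num at h
    · exact h0
  have hn' : (0 : ℝ) < n := by exact_mod_cast hn
  have h1 : Real.exp 3 ≤ n := (Real.le_log_iff_exp_le hn').1 h
  have h2 : Real.exp 3 = Real.exp 1 ^ 3 := by
    rw [← Real.exp_nat_mul]
    norm_num
  have h3 : (2.7 : ℝ) ^ 3 ≤ Real.exp 1 ^ 3 := by
    apply pow_le_pow_left₀ (by norm_num)
    have := Real.exp_one_gt_d9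
    linarith
  have h4 : (16 : ℝ) ≤ n := by
    rw [h2] at h1
    refine le_trans ?_ h1
    refine le_trans ?_ h3
    norm_num
  exact ⟨by exact_mod_cast h4, hn⟩

theorem clq (hSpr : SprStmt) (hCla : ClaStmt) (hPlt : PltStmt) (hOne : OneStmt) : ClqStmt := by
  intro V _ k c W s R L q κ B S0 P hsym hNo4 hFlat hL hsL hs2 hk hq hB hS0 hP hκ hκ8 hKP hS0b
    hS0c hlogW hR
  obtain ⟨U, Bad, hBadR, hBad, hUW, hU0, hU⟩ :=
    hCla V k c W s R L q B S0 hsym hFlat hL hsL hs2 hk hq hB hS0 hlogW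
  have hU0W : U 0 ⊆ W := hUW 0 (Nat.zero_le R)
  obtain ⟨h16, hpos0⟩ := card16_clq hU0
  have hs0 : (0 : ℝ) < s := by
    have : (2 : ℝ) ≤ s := by exact_mod_cast hs2
    linarith
  have hlk : 0 ≤ Real.log ((k : ℝ) + 1) := by
    apply Real.log_nonneg
    have : (0 : ℝ) ≤ k := Nat.cast_nonneg k
    linarith
  have hS0pos : 0 < S0 := by
    have : 0 ≤ 2 * (s : ℝ) ^ 2 * Real.log (k + 1) := by positivity
    linarith
  have hFlat0 : Flat c (U 0) s (L * s) := fun S hS hc => hFlat S (hS.trans hU0W) hc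
  obtain ⟨A0, B0, e0, hA0, hB0, hAB0, hA0n, hB0n, hA0l, hB0l, hd0⟩ :=
    hSpr V k c (U 0) s L hsym hFlat0 hL hsL hs2 h16
  have hqpos : 0 < q := by rw [hq]; positivity
  have hB2 : (1 : ℝ) ≤ B + 2 := by linarith
  have hSmono : ∀ j : ℕ, (B + 2) ^ j * S0 ≤ (B + 2) ^ (j + 1) * S0 := by
    intro j
    apply mul_le_mul_of_nonneg_right _ hS0pos.le
    exact pow_le_pow_right₀ hB2 (Nat.le_succ j)
  obtain ⟨Bd, hBdR, hBd, hBdj⟩ := hPlt V k c (U 0) (fun j => (B + 2) ^ j * S0) R q A0 B0 e0 hSmono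
    hqpos hA0 hB0 hAB0 hA0n hB0n
    (by simp only [pow_zero, one_mul]; linarith) (by simp only [pow_zero, one_mul]; linarith)
    (by rw [hq]; exact hd0)
  -- counting
  have hl : 0 < Real.log (1 + 1 / 1000 : ℝ) := Real.log_pos (by norm_num)
  have hc1 : (Bad.card : ℝ) ≤ 64 * Real.log k / B := by
    rw [le_div_iff₀ (by linarith)]
    exact hBad
  have hc2 : (Bd.card : ℝ) ≤ Real.log (1 / q) / Real.log (1 + 1 / 1000) := by
    rw [le_div_iff₀ hl]
    exact hBd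
  have hc3 : (Bad ∪ Bd).card < (range R).card := by
    rw [card_range]
    have h1 : ((Bad ∪ Bd).card : ℝ) ≤ (Bad.card : ℝ) + Bd.card := by
      exact_mod_cast card_union_le Bad Bd
    have h2 : ((Bad ∪ Bd).card : ℝ) < R := by linarith
    exact_mod_cast h2
  obtain ⟨j, hjR, hjn⟩ := exists_mem_notMem_of_card_lt_card hc3
  rw [mem_union, not_or] at hjn
  obtain ⟨hj1, hj2, hj3, hj4, hj5⟩ := hU j (mem_sdiff.2 ⟨hjR, hjn.1⟩)
  obtain ⟨A, B', e, M, hA, hB', hAB, hAn, hBn, hAl, hBl, hqM, hM1, hd, hsat⟩ :=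
    hBdj j (mem_sdiff.2 ⟨hjR, hjn.2⟩)
  have hjle : j ≤ R := (mem_range.1 hjR).le
  have hSj : S0 ≤ (B + 2) ^ j * S0 := by
    have := one_le_pow₀ hB2 (n := j)
    have h1 := mul_le_mul_of_nonneg_right this hS0pos.le
    linarith
  have hSjpos : 0 < (B + 2) ^ j * S0 := lt_of_lt_of_le hS0pos hSj
  have hNo40 : No4 c (U 0) := by
    intro x hx x' hx' y hy y' hy'
    exact hNo4 x (hU0W hx) x' (hU0W hx') y (hU0W hy) y' (hU0W hy')
  have hpal : ((pal c (U j)).card : ℝ) ≤ P := by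
    have h1 : ((pal c (U j)).card : ℝ) ≤ ((pal c W).card : ℝ) := by
      exact_mod_cast card_le_card (pal_mono_clq c (hUW j hjle))
    linarith
  have hSj1 : (B + 2) ^ (j + 1) * S0 = B * ((B + 2) ^ j * S0) + 2 * ((B + 2) ^ j * S0) := by
    rw [pow_succ]
    ring
  refine hOne V k c (U (j + 1)) (U j) (U 0) A B' e q κ ((B + 2) ^ j * S0)
    (B * ((B + 2) ^ j * S0)) M hNo40 hj2 hj1 (card_pos.1 hpos0) hSjpos ?_ hqpos hqM hM1 hκ hκ8
    hj4 hj3 hj5 ?_ (by linarith) (by linarith) hA hB' hAB hAn hBn hAl hBl hd ?_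
  · exact mul_le_mul_of_nonneg_right hB hSjpos.le
  · have h1 : 3 * √κ * ((pal c (U j)).card : ℝ) ≤ 3 * √κ * P :=
      mul_le_mul_of_nonneg_left hpal (by positivity)
    linarith
  · intro A' hA' B'' hB'' hAB' hAn' hBn' hAl' hBl'
    refine hsat A' hA' B'' hB'' hAB' hAn' hBn' ?_ ?_
    · rw [hSj1]
      exact hAl'
    · rw [hSj1]
      exact hBl'

end Pool.Agent.EGF.H47
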