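import Pool.Agent.EGF.Stmts

set_option autoImplicit false

open Finset

namespace Pool.Agent.EGF.H47

theorem cnt : CntStmt := by
  classical
  intro V _ k c C m A B x x' y y' a b f hc hD hR hm
  -- eight rounds with the same pattern
  obtain ⟨I, hIm, hI8, F, hF⟩ : ∃ I : Finset ℕ, (∀ i ∈ I, i < m) ∧ I.card = 8 ∧
      ∃ F : Fin 8 → Fin k, ∀ i ∈ I, f i = F := by
    have h1 : ∀ i ∈ Finset.range m, f i ∈ Fintype.piFinset (fun _ : Fin 8 => C) := by
      intro i hi
      rw [Fintype.mem_piFinset]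
      exact (hR i (Finset.mem_range.mp hi)).fC
    have h2 : (Fintype.piFinset (fun _ : Fin 8 => C)).card * 7 < (Finset.range m).card := by
      rw [Fintype.card_piFinset_const, Finset.card_range]
      simpa [mul_comm] using hm
    obtain ⟨F, _, hF⟩ := Finset.exists_lt_card_fiber_of_mul_lt_card_of_maps_to h1 h2
    obtain ⟨I, hI, hI8⟩ := Finset.exists_subset_card_eq (Nat.succ_le_of_lt hF)
    refine ⟨I, fun i hi => ?_, hI8, F, fun i hi => ?_⟩
    · exact Finset.mem_range.mp (Finset.mem_filter.mp (hI hi)).1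
    · exact (Finset.mem_filter.mp (hI hi)).2
  -- monotonicity
  have hAmono : ∀ n, n ≤ m → ∀ i, i ≤ n → A n ⊆ A i := by
    intro n
    induction n with
    | zero => intro _ i hi; rw [Nat.le_zero.mp hi]
    | succ n ih =>
      intro hn i hi
      rcases Nat.lt_or_ge i (n + 1) with h | h
      · exact ((hR n (by omega)).sA).trans (ih (by omega) i (by omega))
      · rw [show i = n + 1 by omega]
  have hBmono : ∀ n, n ≤ m → ∀ i, i ≤ n → B n ⊆ B i := by
    intro n
    induction n with
    | zero => intro _ i hi; rw [Nat.le_zero.mp hi]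
    | succ n ih =>
      intro hn i hi
      rcases Nat.lt_or_ge i (n + 1) with h | h
      · exact ((hR n (by omega)).sB).trans (ih (by omega) i (by omega))
      · rw [show i = n + 1 by omega]
  have hdis : ∀ u v, u ∈ A 0 → v ∈ B 0 → u ≠ v := by
    intro u v hu hv h
    subst h
    exact (Finset.disjoint_left.mp hD) hu hv
  have hA0 : ∀ i < m, ∀ u ∈ A i, u ∈ A 0 := fun i hi u hu => hAmono i hi.le 0 (Nat.zero_le _) hu
  have hB0 : ∀ i < m, ∀ u ∈ B i, u ∈ B 0 := fun i hi u hu => hBmono i hi.le 0 (Nat.zero_le _) hu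
  let g : ℕ → Fin 4 → V := fun i => ![x i, x' i, y i, y' i]
  -- different rounds give different vertices
  have hIne : I.Nonempty := by rw [← Finset.card_pos, hI8]; norm_num
  let M := I.max' hIne
  let P : Finset (Fin k) := (I.image fun i => c (x i) (x' i)) ∪ (I.erase M).image a ∪
    (I.erase M).image b ∪ Finset.univ.image F
  have hPcard : P.card ≤ 30 := by
    have e1 : (I.image fun i => c (x i) (x' i)).card ≤ 8 := by
      rw [← hI8]; exact Finset.card_image_le
    have e2 : (I.erase M).card = 7 := by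
      rw [Finset.card_erase_of_mem (Finset.max'_mem _ _), hI8]
    have e3 : ((I.erase M).image a).card ≤ 7 := by
      rw [← e2]; exact Finset.card_image_le
    have e4 : ((I.erase M).image b).card ≤ 7 := by
      rw [← e2]; exact Finset.card_image_le
    have e5 : (Finset.univ.image F).card ≤ 8 := by
      refine Finset.card_image_le.trans ?_; simp
    have u1 := Finset.card_union_le (I.image fun i => c (x i) (x' i)) ((I.erase M).image a)
    have u2 := Finset.card_union_le ((I.image fun i => c (x i) (x' i)) ∪ (I.erase M).image a)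
      ((I.erase M).image b)
    have u3 := Finset.card_union_le ((I.image fun i => c (x i) (x' i)) ∪ (I.erase M).image a ∪
      (I.erase M).image b) (Finset.univ.image F)
    show ((I.image fun i => c (x i) (x' i)) ∪ (I.erase M).image a ∪
      (I.erase M).image b ∪ Finset.univ.image F).card ≤ 30
    omega
  have pc : ∀ i ∈ I, c (x i) (x' i) ∈ P := fun i hi =>
    Finset.mem_union_left _ (Finset.mem_union_left _ (Finset.mem_union_left _
      (Finset.mem_image_of_mem (fun i => c (x i) (x' i)) hi)))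
  have pa : ∀ i ∈ I, i ≠ M → a i ∈ P := fun i hi h =>
    Finset.mem_union_left _ (Finset.mem_union_left _ (Finset.mem_union_right _
      (Finset.mem_image_of_mem a (Finset.mem_erase.mpr ⟨h, hi⟩))))
  have pb : ∀ i ∈ I, i ≠ M → b i ∈ P := fun i hi h =>
    Finset.mem_union_left _ (Finset.mem_union_right _
      (Finset.mem_image_of_mem b (Finset.mem_erase.mpr ⟨h, hi⟩)))
  have pF : ∀ r, F r ∈ P := fun r =>
    Finset.mem_union_right _ (Finset.mem_image_of_mem F (Finset.mem_univ r))
  -- the same round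
  have same : ∀ i ∈ I, ∀ r s : Fin 4, r ≠ s → g i r ≠ g i s ∧ c (g i r) (g i s) ∈ P := by
    intro i hi r s hrs
    have H := hR i (hIm i hi)
    have hf := hF i hi
    have mx := hA0 i (hIm i hi) _ H.hx
    have mx' := hA0 i (hIm i hi) _ H.hx'
    have my := hB0 i (hIm i hi) _ H.hy
    have my' := hB0 i (hIm i hi) _ H.hy'
    have c1 : c (x i) (x' i) ∈ P := pc i hi
    have c2 : c (y i) (y' i) ∈ P := H.eq ▸ c1
    have d0 : c (x i) (y i) ∈ P := by rw [H.f0, hf]; exact pF 0
    have d1 : c (x i) (y' i) ∈ P := by rw [H.f1, hf]; exact pF 1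
    have d2 : c (x' i) (y i) ∈ P := by rw [H.f2, hf]; exact pF 2
    have d3 : c (x' i) (y' i) ∈ P := by rw [H.f3, hf]; exact pF 3
    have n0 := hdis _ _ mx my
    have n1 := hdis _ _ mx my'
    have n2 := hdis _ _ mx' my
    have n3 := hdis _ _ mx' my'
    fin_cases r <;> fin_cases s
    · exact absurd rfl hrs
    · exact ⟨H.nx, c1⟩
    · exact ⟨n0, d0⟩
    · exact ⟨n1, d1⟩
    · exact ⟨H.nx.symm, by show c (x' i) (x i) ∈ P; rw [hc]; exact c1⟩
    · exact absurd rfl hrs
    · exact ⟨n2, d2⟩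
    · exact ⟨n3, d3⟩
    · exact ⟨n0.symm, by show c (y i) (x i) ∈ P; rw [hc]; exact d0⟩
    · exact ⟨n2.symm, by show c (y i) (x' i) ∈ P; rw [hc]; exact d2⟩
    · exact absurd rfl hrs
    · exact ⟨H.ny, c2⟩
    · exact ⟨n1.symm, by show c (y' i) (x i) ∈ P; rw [hc]; exact d1⟩
    · exact ⟨n3.symm, by show c (y' i) (x' i) ∈ P; rw [hc]; exact d3⟩
    · exact ⟨H.ny.symm, by show c (y' i) (y i) ∈ P; rw [hc]; exact c2⟩
    · exact absurd rfl hrs
  -- different rounds
  have diff : ∀ i ∈ I, ∀ j ∈ I, i < j → ∀ r s : Fin 4,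
      g i r ≠ g j s ∧ c (g i r) (g j s) ∈ P := by
    intro i hi j hj hij r s
    have H := hR i (hIm i hi)
    have hf := hF i hi
    have HJ := hR j (hIm j hj)
    have hiM : i ≠ M := by
      intro h
      have := Finset.le_max' I j hj
      omega
    have mx := hA0 i (hIm i hi) _ H.hx
    have mx' := hA0 i (hIm i hi) _ H.hx'
    have my := hB0 i (hIm i hi) _ H.hy
    have my' := hB0 i (hIm i hi) _ H.hy'
    have zA : ∀ z ∈ A j, ∀ r : Fin 4, g i r ≠ z ∧ c (g i r) z ∈ P := by
      intro z hz r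
      have hz1 : z ∈ A (i + 1) := hAmono j (hIm j hj).le (i + 1) hij hz
      have hz0 : z ∈ A 0 := hA0 j (hIm j hj) _ hz
      obtain ⟨q1, q2, q3, q4, q5, q6⟩ := H.cA z hz1
      fin_cases r
      · exact ⟨q1.symm, by show c (x i) z ∈ P; rw [q3]; exact pa i hi hiM⟩
      · exact ⟨q2.symm, by show c (x' i) z ∈ P; rw [q4]; exact pa i hi hiM⟩
      · exact ⟨(hdis _ _ hz0 my).symm, by show c (y i) z ∈ P; rw [q5, hf]; exact pF 4⟩
      · exact ⟨(hdis _ _ hz0 my').symm, by show c (y' i) z ∈ P; rw [q6, hf]; exact pF 5⟩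
    have zB : ∀ z ∈ B j, ∀ r : Fin 4, g i r ≠ z ∧ c (g i r) z ∈ P := by
      intro z hz r
      have hz1 : z ∈ B (i + 1) := hBmono j (hIm j hj).le (i + 1) hij hz
      have hz0 : z ∈ B 0 := hB0 j (hIm j hj) _ hz
      obtain ⟨q1, q2, q3, q4, q5, q6⟩ := H.cB z hz1
      fin_cases r
      · exact ⟨hdis _ _ mx hz0, by show c (x i) z ∈ P; rw [q5, hf]; exact pF 6⟩
      · exact ⟨hdis _ _ mx' hz0, by show c (x' i) z ∈ P; rw [q6, hf]; exact pF 7⟩
      · exact ⟨q1.symm, by show c (y i) z ∈ P; rw [q3]; exact pb i hi hiM⟩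
      · exact ⟨q2.symm, by show c (y' i) z ∈ P; rw [q4]; exact pb i hi hiM⟩
    have hg : g j s ∈ A j ∨ g j s ∈ B j := by
      fin_cases s
      · exact Or.inl HJ.hx
      · exact Or.inl HJ.hx'
      · exact Or.inr HJ.hy
      · exact Or.inr HJ.hy'
    rcases hg with h | h
    · exact zA _ h r
    · exact zB _ h r
  have main : ∀ i ∈ I, ∀ j ∈ I, ∀ r s : Fin 4, (i, r) ≠ (j, s) →
      g i r ≠ g j s ∧ c (g i r) (g j s) ∈ P := by
    intro i hi j hj r s h
    rcases lt_trichotomy i j with hij | hij | hij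
    · exact diff i hi j hj hij r s
    · subst hij
      exact same i hi r s fun e => h (by rw [e])
    · have := diff j hj i hi hij s r
      exact ⟨this.1.symm, by rw [hc]; exact this.2⟩
  refine ⟨(I ×ˢ (Finset.univ : Finset (Fin 4))).image fun p => g p.1 p.2, ?_, ?_, ?_⟩
  · intro v hv
    obtain ⟨p, hp, rfl⟩ := Finset.mem_image.mp hv
    have hi := (Finset.mem_product.mp hp).1
    have H := hR p.1 (hIm p.1 hi)
    rw [Finset.mem_union]
    obtain ⟨i, r⟩ := p
    fin_cases r
    · exact Or.inl (hA0 i (hIm i hi) _ H.hx)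
    · exact Or.inl (hA0 i (hIm i hi) _ H.hx')
    · exact Or.inr (hB0 i (hIm i hi) _ H.hy)
    · exact Or.inr (hB0 i (hIm i hi) _ H.hy')
  · rw [Finset.card_image_of_injOn]
    · simp [hI8]
    · intro p hp q hq h
      by_contra hpq
      have hp' := (Finset.mem_product.mp (Finset.mem_coe.mp hp)).1
      have hq' := (Finset.mem_product.mp (Finset.mem_coe.mp hq)).1
      exact (main p.1 hp' q.1 hq' p.2 q.2 hpq).1 h
  · refine le_trans (Finset.card_le_card ?_) hPcard
    intro e he
    unfold pal at he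
    obtain ⟨q, hq, rfl⟩ := Finset.mem_image.mp he
    rw [Finset.mem_filter, Finset.mem_product] at hq
    obtain ⟨p1, hp1, e1⟩ := Finset.mem_image.mp hq.1.1
    obtain ⟨p2, hp2, e2⟩ := Finset.mem_image.mp hq.1.2
    have hne : p1 ≠ p2 := by
      intro h
      apply hq.2
      rw [← e1, ← e2, h]
    rw [← e1, ← e2]
    exact (main p1.1 (Finset.mem_product.mp hp1).1 p2.1 (Finset.mem_product.mp hp2).1 p1.2 p2.2
      hne).2

end Pool.Agent.EGF.H47
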