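import Pool.Agent.EGF.Stmts

set_option autoImplicit false

open Finset

namespace Pool.Agent.EGF.H47

/-- averaging over one coordinate -/
theorem upd_sum {ι V : Type} [DecidableEq ι] [Fintype ι] [DecidableEq V] (W : Finset V) (l : ι)
    (G : (ι → V) → ℝ) :
    ∑ v ∈ Fintype.piFinset (fun _ : ι => W), ∑ w ∈ W, G (Function.update v l w) =
      W.card * ∑ v ∈ Fintype.piFinset (fun _ : ι => W), G v := by
  have h1 : ∑ v ∈ Fintype.piFinset (fun _ : ι => W), ∑ w ∈ W, G (Function.update v l w) =
      ∑ p ∈ Fintype.piFinset (fun _ : ι => W) ×ˢ W, G (Function.update p.1 l p.2) := by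
    rw [Finset.sum_product]
  have h2 : (W.card : ℝ) * ∑ v ∈ Fintype.piFinset (fun _ : ι => W), G v =
      ∑ p ∈ Fintype.piFinset (fun _ : ι => W) ×ˢ W, G p.1 := by
    rw [Finset.sum_product]
    simp [Finset.mul_sum]
  rw [h1, h2]
  have key : ∀ p ∈ Fintype.piFinset (fun _ : ι => W) ×ˢ W,
      (Function.update p.1 l p.2, p.1 l) ∈ Fintype.piFinset (fun _ : ι => W) ×ˢ W := by
    intro p hp
    simp only [Finset.mem_product, Fintype.mem_piFinset] at hp ⊢
    refine ⟨fun a => ?_, hp.1 l⟩
    by_cases h : a = l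
    · subst h; simpa using hp.2
    · simpa [Function.update_of_ne h] using hp.1 a
  have inv : ∀ p ∈ Fintype.piFinset (fun _ : ι => W) ×ˢ W,
      (Function.update (Function.update p.1 l p.2, p.1 l).1 l (Function.update p.1 l p.2, p.1 l).2,
        (Function.update p.1 l p.2, p.1 l).1 l) = p := by
    intro p hp
    simp
  exact Finset.sum_nbij' (fun p => (Function.update p.1 l p.2, p.1 l))
    (fun p => (Function.update p.1 l p.2, p.1 l)) key key inv inv (fun p hp => rfl)

/-- number of values against number of coincidences -/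
theorem coinc {α β : Type} [DecidableEq α] [DecidableEq β] (f : α → β) (T : Finset α) :
    2 * T.card ≤ 2 * (T.image f).card +
      ((T ×ˢ T).filter fun p => p.1 ≠ p.2 ∧ f p.1 = f p.2).card := by
  induction T using Finset.induction_on with
  | empty => simp
  | insert x T hx ih =>
    by_cases h : f x ∈ T.image f
    · obtain ⟨y, hy, hyx⟩ := Finset.mem_image.mp h
      have hne : x ≠ y := fun e => hx (e ▸ hy)
      have hsub : insert (x, y) (insert (y, x) ((T ×ˢ T).filter fun p => p.1 ≠ p.2 ∧ f p.1 = f p.2))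
          ⊆ ((insert x T ×ˢ insert x T).filter fun p => p.1 ≠ p.2 ∧ f p.1 = f p.2) := by
        intro p hp
        rcases Finset.mem_insert.mp hp with hp | hp
        · subst hp
          simp [hy, hne, hyx]
        rcases Finset.mem_insert.mp hp with hp | hp
        · subst hp
          simp [hy, hne.symm, hyx]
        · simp only [Finset.mem_filter, Finset.mem_product, Finset.mem_insert] at hp ⊢
          exact ⟨⟨Or.inr hp.1.1, Or.inr hp.1.2⟩, hp.2⟩
      have hc := Finset.card_le_card hsub
      rw [Finset.card_insert_of_notMem, Finset.card_insert_of_notMem] at hc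
      · have hi : (insert x T).image f = T.image f := by
          rw [Finset.image_insert, Finset.insert_eq_self.mpr h]
        rw [hi, Finset.card_insert_of_notMem hx]
        omega
      · simp [hx]
      · simp only [Finset.mem_insert, Prod.mk.injEq, Finset.mem_filter, Finset.mem_product, not_or]
        exact ⟨fun e => hne e.1, fun e => hx e.1.1⟩
    · rw [Finset.image_insert, Finset.card_insert_of_notMem h, Finset.card_insert_of_notMem hx]
      have hsub : ((T ×ˢ T).filter fun p => p.1 ≠ p.2 ∧ f p.1 = f p.2)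
          ⊆ ((insert x T ×ˢ insert x T).filter fun p => p.1 ≠ p.2 ∧ f p.1 = f p.2) := by
        intro p hp
        simp only [Finset.mem_filter, Finset.mem_product, Finset.mem_insert] at hp ⊢
        exact ⟨⟨Or.inr hp.1.1, Or.inr hp.1.2⟩, hp.2⟩
      have hc := Finset.card_le_card hsub
      omega

section

variable {V : Type} [DecidableEq V] {k : ℕ}

theorem mins_symm {c : V → V → Fin k} (hc : ∀ x y, c x y = c y x) {W : Finset V} {t : ℝ} {x y : V}
    (h : (x, y) ∈ mins c W t) : (y, x) ∈ mins c W t := by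
  classical
  unfold mins at h ⊢
  simp only [Finset.mem_filter, Finset.mem_product] at h ⊢
  refine ⟨⟨h.1.2, h.1.1⟩, fun e => h.2.1 e.symm, ?_, ?_⟩
  · rw [hc y x]; exact h.2.2.2
  · rw [hc y x]; exact h.2.2.1

theorem mins_deg {c : V → V → Fin k} {W : Finset V} {t : ℝ} {x y : V}
    (h : (x, y) ∈ mins c W t) : ((nb c W (c x y) x).card : ℝ) < t * W.card := by
  classical
  unfold mins at h
  simp only [Finset.mem_filter, Finset.mem_product] at h
  exact h.2.2.1

theorem mins_ne {c : V → V → Fin k} {W : Finset V} {t : ℝ} {x y : V}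
    (h : (x, y) ∈ mins c W t) : x ≠ y ∧ x ∈ W ∧ y ∈ W := by
  classical
  unfold mins at h
  simp only [Finset.mem_filter, Finset.mem_product] at h
  exact ⟨h.2.1, h.1.1, h.1.2⟩

/-- for a given vertex and colour there are few light neighbours of this colour -/
theorem few {c : V → V → Fin k} {W : Finset V} {t : ℝ} (ht : 0 ≤ t) (z : V) (a : Fin k) :
    (((W.filter fun w => (z, w) ∈ mins c W t ∧ c z w = a)).card : ℝ) ≤ t * W.card := by
  classical
  rcases (W.filter fun w => (z, w) ∈ mins c W t ∧ c z w = a).eq_empty_or_nonempty with h | h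
  · rw [h]; simp; positivity
  · obtain ⟨w0, hw0⟩ := h
    have hw := (Finset.mem_filter.mp hw0).2
    have h1 := mins_deg hw.1
    rw [hw.2] at h1
    refine le_trans ?_ h1.le
    norm_cast
    apply Finset.card_le_card
    intro w hw
    rw [Finset.mem_filter] at hw
    unfold nb
    rw [Finset.mem_filter]
    exact ⟨hw.1, fun e => (mins_ne hw.2.1).1 e.symm, hw.2.2⟩

end

/-- the index pairs -/
def IP (s : ℕ) : Finset (Fin s × Fin s) := Finset.univ.filter fun e => e.1 < e.2

theorem card_IP (s : ℕ) : 2 * ((IP s).card : ℝ) = s * (s - 1) := by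
  have h1 : (IP s).card = (Finset.univ.filter fun e : Fin s × Fin s => e.2 < e.1).card := by
    unfold IP
    refine Finset.card_bij (fun e _ => e.swap) ?_ ?_ ?_
    · intro e he; simpa using he
    · intro a _ b _ h; exact Prod.swap_injective h
    · intro e he; exact ⟨e.swap, by simpa using he, by simp⟩
  have h2 : (Finset.univ.filter fun e : Fin s × Fin s => e.1 = e.2).card = s := by
    have : (Finset.univ.filter fun e : Fin s × Fin s => e.1 = e.2) =
        Finset.univ.image (fun i : Fin s => (i, i)) := by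
      ext ⟨a, b⟩
      simp only [Finset.mem_filter, Finset.mem_univ, true_and, Finset.mem_image, Prod.mk.injEq]
      constructor
      · intro h; exact ⟨a, rfl, h⟩
      · rintro ⟨i, h, h'⟩; exact h.symm.trans h'
    rw [this, Finset.card_image_of_injective]
    · simp
    · intro a b h; exact (Prod.mk.inj h).1
  have h3 : (IP s).card + (Finset.univ.filter fun e : Fin s × Fin s => e.2 < e.1).card +
      (Finset.univ.filter fun e : Fin s × Fin s => e.1 = e.2).card = s * s := by
    have hu : (Finset.univ : Finset (Fin s × Fin s)).card = s * s := by simp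
    rw [← hu, IP, ← Finset.card_union_of_disjoint, ← Finset.card_union_of_disjoint]
    · congr 1
      ext ⟨a, b⟩
      simp only [Finset.mem_union, Finset.mem_filter, Finset.mem_univ, true_and, iff_true]
      rcases lt_trichotomy a b with h | h | h
      · exact Or.inl (Or.inl h)
      · exact Or.inr h
      · exact Or.inl (Or.inr h)
    · rw [Finset.disjoint_left]
      intro e he he'
      simp only [Finset.mem_union, Finset.mem_filter, Finset.mem_univ, true_and] at he he'
      rcases he with h | h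
      · exact absurd he' h.ne
      · exact absurd he' h.ne'
    · rw [Finset.disjoint_left]
      intro e he he'
      simp only [Finset.mem_filter, Finset.mem_univ, true_and] at he he'
      exact absurd he' (lt_asymm he)
  rw [← h1, h2] at h3
  have h4 : ((IP s).card : ℝ) + (IP s).card + s = s * s := by exact_mod_cast h3
  linarith


open Classical in
theorem min_ : MinStmt := by
  intro V _ k c W s Λ t hc hF hs ht hst
  set Ω : Finset (Fin s → V) := Fintype.piFinset (fun _ : Fin s => W) with hΩ
  set M := mins c W t with hM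
  have hΩc : (Ω.card : ℝ) = (W.card : ℝ) ^ s := by
    rw [hΩ, Fintype.card_piFinset_const]; push_cast; simp
  -- the palette of the image
  have hΛ : 0 ≤ Λ := by
    have := hF ∅ (Finset.empty_subset _) (by simp)
    exact le_trans (by positivity) this
  rcases W.eq_empty_or_nonempty with hW | hW
  · have : M = ∅ := by
      rw [hM]; unfold mins; simp [hW]
    rw [this, hW]; simp
  have hN : (0 : ℝ) < W.card := by exact_mod_cast hW.card_pos
  -- indicator functions
  let g : (Fin s → V) → Fin s × Fin s → ℝ := fun v e => if (v e.1, v e.2) ∈ M then 1 else 0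
  let h : (Fin s → V) → Fin s × Fin s → Fin s × Fin s → ℝ := fun v e e' =>
    if (v e.1, v e.2) ∈ M ∧ (v e'.1, v e'.2) ∈ M ∧ c (v e.1) (v e.2) = c (v e'.1) (v e'.2)
      then 1 else 0
  have hg0 : ∀ v e, 0 ≤ g v e := by intro v e; simp only [g]; split_ifs <;> norm_num
  -- step 1 : for each v
  have step1 : ∀ v ∈ Ω, 2 * ∑ e ∈ IP s, g v e ≤ 2 * Λ +
      ∑ e ∈ IP s, ∑ e' ∈ (IP s).erase e, h v e e' := by
    intro v hv
    have hvW : ∀ i, v i ∈ W := by
      intro i; exact (Fintype.mem_piFinset.mp hv) i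
    let T := (IP s).filter fun e => (v e.1, v e.2) ∈ M
    let f : Fin s × Fin s → Fin k := fun e => c (v e.1) (v e.2)
    have h1 := coinc f T
    have h2 : ((T.image f).card : ℝ) ≤ Λ := by
      have hsub : T.image f ⊆ pal c (Finset.univ.image v) := by
        intro a ha
        obtain ⟨e, he, rfl⟩ := Finset.mem_image.mp ha
        have heM : (v e.1, v e.2) ∈ M := (Finset.mem_filter.mp he).2
        unfold pal
        rw [Finset.mem_image]
        refine ⟨(v e.1, v e.2), ?_, rfl⟩
        rw [Finset.mem_filter, Finset.mem_product]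
        exact ⟨⟨Finset.mem_image_of_mem _ (Finset.mem_univ _),
          Finset.mem_image_of_mem _ (Finset.mem_univ _)⟩, (mins_ne heM).1⟩
      have hcard : (Finset.univ.image v).card ≤ s := by
        refine le_trans Finset.card_image_le ?_
        simp
      have hsW : Finset.univ.image v ⊆ W := by
        intro a ha
        obtain ⟨i, _, rfl⟩ := Finset.mem_image.mp ha
        exact hvW i
      have := hF _ hsW hcard
      refine le_trans ?_ this
      exact_mod_cast Finset.card_le_card hsub
    have h3 : (T.card : ℝ) = ∑ e ∈ IP s, g v e := by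
      simp only [g, T]
      rw [Finset.sum_boole]
    have h4 : ((((T ×ˢ T).filter fun p => p.1 ≠ p.2 ∧ f p.1 = f p.2).card : ℕ) : ℝ) ≤
        ∑ e ∈ IP s, ∑ e' ∈ (IP s).erase e, h v e e' := by
      have e1 : ∑ e ∈ IP s, ∑ e' ∈ (IP s).erase e, h v e e' =
          ∑ e ∈ IP s, ((((IP s).erase e).filter fun e' => (v e.1, v e.2) ∈ M ∧
            (v e'.1, v e'.2) ∈ M ∧ c (v e.1) (v e.2) = c (v e'.1) (v e'.2)).card : ℝ) := by
        refine Finset.sum_congr rfl fun e _ => ?_
        simp only [h]
        rw [Finset.sum_boole]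
      rw [e1]
      have e2 : ((T ×ˢ T).filter fun p => p.1 ≠ p.2 ∧ f p.1 = f p.2) ⊆
          (IP s).biUnion fun e => (((IP s).erase e).filter fun e' => (v e.1, v e.2) ∈ M ∧
            (v e'.1, v e'.2) ∈ M ∧ c (v e.1) (v e.2) = c (v e'.1) (v e'.2)).image
              fun e' => (e, e') := by
        intro p hp
        rw [Finset.mem_filter, Finset.mem_product, Finset.mem_filter, Finset.mem_filter] at hp
        rw [Finset.mem_biUnion]
        refine ⟨p.1, hp.1.1.1, ?_⟩
        rw [Finset.mem_image]
        refine ⟨p.2, ?_, rfl⟩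
        rw [Finset.mem_filter, Finset.mem_erase]
        exact ⟨⟨fun e => hp.2.1 e.symm, hp.1.2.1⟩, hp.1.1.2, hp.1.2.2, hp.2.2⟩
      have e3 := (Finset.card_le_card e2).trans Finset.card_biUnion_le
      have e4 : ∀ e ∈ IP s, ((((IP s).erase e).filter fun e' => (v e.1, v e.2) ∈ M ∧
            (v e'.1, v e'.2) ∈ M ∧ c (v e.1) (v e.2) = c (v e'.1) (v e'.2)).image
              fun e' => (e, e')).card ≤ (((IP s).erase e).filter fun e' => (v e.1, v e.2) ∈ M ∧
            (v e'.1, v e'.2) ∈ M ∧ c (v e.1) (v e.2) = c (v e'.1) (v e'.2)).card :=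
        fun e _ => Finset.card_image_le
      have e5 := e3.trans (Finset.sum_le_sum e4)
      exact_mod_cast e5
    have h1' : 2 * (T.card : ℝ) ≤ 2 * ((T.image f).card : ℝ) +
        (((T ×ˢ T).filter fun p => p.1 ≠ p.2 ∧ f p.1 = f p.2).card : ℝ) := by exact_mod_cast h1
    rw [h3] at h1'
    linarith
  -- step 2 : coincidences
  have step2 : ∀ e ∈ IP s, ∀ e' ∈ (IP s).erase e, ∑ v ∈ Ω, h v e e' ≤ t * ∑ v ∈ Ω, g v e := by
    intro e he e' he'
    have hlt : e.1 < e.2 := (Finset.mem_filter.mp he).2
    have hlt' : e'.1 < e'.2 := (Finset.mem_filter.mp (Finset.mem_erase.mp he').2).2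
    have hne : e' ≠ e := (Finset.mem_erase.mp he').1
    obtain ⟨l, l', hl1, hl2, hll, hex⟩ : ∃ l l' : Fin s, l ≠ e.1 ∧ l ≠ e.2 ∧ l' ≠ l ∧
        (∀ v, h v e e' ≤ if (v e.1, v e.2) ∈ M ∧ ((v l', v l) ∈ M ∧
          c (v l') (v l) = c (v e.1) (v e.2)) then 1 else 0) := by
      by_cases hA : e'.1 ≠ e.1 ∧ e'.1 ≠ e.2
      · refine ⟨e'.1, e'.2, hA.1, hA.2, hlt'.ne', fun v => ?_⟩
        simp only [h]
        by_cases hh : (v e.1, v e.2) ∈ M ∧ (v e'.1, v e'.2) ∈ M ∧
          c (v e.1) (v e.2) = c (v e'.1) (v e'.2)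
        · rw [if_pos hh, if_pos ⟨hh.1, mins_symm hc hh.2.1, by rw [hc (v e'.2)]; exact hh.2.2.symm⟩]
        · rw [if_neg hh]; split_ifs <;> norm_num
      · refine ⟨e'.2, e'.1, ?_, ?_, hlt'.ne, fun v => ?_⟩
        · intro h2
          apply hA
          refine ⟨fun h3 => ?_, fun h3 => ?_⟩
          · rw [h3, h2] at hlt'; exact lt_irrefl _ hlt'
          · rw [h3, h2] at hlt'; exact lt_asymm hlt hlt'
        · intro h2
          apply hA
          refine ⟨fun h3 => hne (Prod.ext h3 h2), fun h3 => ?_⟩
          rw [h3, h2] at hlt'; exact lt_irrefl _ hlt'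
        · simp only [h]
          by_cases hh : (v e.1, v e.2) ∈ M ∧ (v e'.1, v e'.2) ∈ M ∧
            c (v e.1) (v e.2) = c (v e'.1) (v e'.2)
          · rw [if_pos hh, if_pos ⟨hh.1, hh.2.1, hh.2.2.symm⟩]
          · rw [if_neg hh]; split_ifs <;> norm_num
    let H : (Fin s → V) → ℝ := fun v => if (v e.1, v e.2) ∈ M ∧ ((v l', v l) ∈ M ∧
          c (v l') (v l) = c (v e.1) (v e.2)) then 1 else 0
    have hH : ∑ v ∈ Ω, h v e e' ≤ ∑ v ∈ Ω, H v := Finset.sum_le_sum fun v _ => hex v
    have hu := upd_sum W l H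
    have hb : ∀ v ∈ Ω, ∑ w ∈ W, H (Function.update v l w) ≤ t * W.card * g v e := by
      intro v _
      by_cases hv : (v e.1, v e.2) ∈ M
      · have hgv : g v e = 1 := by simp only [g]; rw [if_pos hv]
        rw [hgv, mul_one]
        refine le_trans (le_of_eq ?_) (few (c := c) ht (v l') (c (v e.1) (v e.2)))
        rw [← Finset.sum_boole]
        refine Finset.sum_congr rfl fun w _ => ?_
        simp only [H, Function.update_self, Function.update_of_ne hl1.symm,
          Function.update_of_ne hl2.symm, Function.update_of_ne hll, hv, true_and]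
        rfl
      · have hgv : g v e = 0 := by simp only [g]; rw [if_neg hv]
        rw [hgv, mul_zero]
        apply le_of_eq
        refine Finset.sum_eq_zero fun w _ => ?_
        simp only [H, Function.update_of_ne hl1.symm, Function.update_of_ne hl2.symm, hv,
          false_and, if_false]
    have hb' := Finset.sum_le_sum hb
    rw [hu, ← Finset.mul_sum] at hb'
    have : (W.card : ℝ) * ∑ v ∈ Ω, H v ≤ W.card * (t * ∑ v ∈ Ω, g v e) := by
      refine le_trans hb' (le_of_eq ?_); ring
    exact hH.trans (le_of_mul_le_mul_left this hN)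
  -- step 3 : exact count of the good functions
  have step3 : ∀ e ∈ IP s, (W.card : ℝ) ^ 2 * ∑ v ∈ Ω, g v e = (W.card : ℝ) ^ s * M.card := by
    intro e he
    have hlt : e.1 < e.2 := (Finset.mem_filter.mp he).2
    have h1 := upd_sum W e.1 (fun v => g v e)
    have h2 := upd_sum W e.2 (fun v => ∑ w ∈ W, g (Function.update v e.1 w) e)
    have h3 : ∀ v ∈ Ω, ∑ w' ∈ W, ∑ w ∈ W, g (Function.update (Function.update v e.2 w') e.1 w) e =
        M.card := by
      intro v _
      have h4 : ∀ w' ∈ W, ∀ w ∈ W, g (Function.update (Function.update v e.2 w') e.1 w) e =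
          if (w, w') ∈ M then 1 else 0 := by
        intro w' _ w _
        simp only [g, Function.update_self, Function.update_of_ne hlt.ne']
      rw [Finset.sum_congr rfl fun w' hw' => Finset.sum_congr rfl fun w hw => h4 w' hw' w hw]
      rw [Finset.sum_comm, ← Finset.sum_product' W W (fun w w' => if (w, w') ∈ M then (1 : ℝ) else 0)]
      rw [Finset.sum_boole]
      congr 1
      congr 1
      ext p
      rw [Finset.mem_filter, Finset.mem_product]
      constructor
      · intro hp; exact hp.2
      · intro hp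
        exact ⟨⟨(mins_ne (x := p.1) (y := p.2) hp).2.1, (mins_ne (x := p.1) (y := p.2) hp).2.2⟩, hp⟩
    have h5 : ∑ v ∈ Ω, ∑ w' ∈ W, ∑ w ∈ W,
        g (Function.update (Function.update v e.2 w') e.1 w) e = (W.card : ℝ) ^ s * M.card := by
      rw [Finset.sum_congr rfl h3, Finset.sum_const, nsmul_eq_mul, hΩc]
    rw [← h5, h2, h1]
    ring
  -- conclusion
  set E : ℝ := ((IP s).card : ℝ) with hE
  have hEs : 2 * E = s * (s - 1) := card_IP s
  have hs' : (2 : ℝ) ≤ s := by exact_mod_cast hs
  have hE1 : 1 ≤ E := by nlinarith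
  set Sg : ℝ := ∑ v ∈ Ω, ∑ e ∈ IP s, g v e with hSg
  have hSg0 : 0 ≤ Sg := Finset.sum_nonneg fun v _ => Finset.sum_nonneg fun e _ => hg0 v e
  have hsum : 2 * Sg ≤ 2 * Λ * (W.card : ℝ) ^ s + t * (E * Sg) := by
    have h1 := Finset.sum_le_sum step1
    rw [← Finset.mul_sum, Finset.sum_add_distrib, Finset.sum_const, nsmul_eq_mul, hΩc] at h1
    have h2 : ∑ v ∈ Ω, ∑ e ∈ IP s, ∑ e' ∈ (IP s).erase e, h v e e' ≤ t * (E * Sg) := by
      rw [Finset.sum_comm]
      have h3 : ∀ e ∈ IP s, ∑ v ∈ Ω, ∑ e' ∈ (IP s).erase e, h v e e' ≤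
          E * (t * ∑ v ∈ Ω, g v e) := by
        intro e he
        rw [Finset.sum_comm]
        refine le_trans (Finset.sum_le_sum (step2 e he)) ?_
        rw [Finset.sum_const, nsmul_eq_mul]
        have h0 : 0 ≤ t * ∑ v ∈ Ω, g v e :=
          mul_nonneg ht (Finset.sum_nonneg fun v _ => hg0 v e)
        refine mul_le_mul_of_nonneg_right ?_ h0
        rw [hE]
        exact_mod_cast Finset.card_le_card (Finset.erase_subset _ _)
      refine le_trans (Finset.sum_le_sum h3) (le_of_eq ?_)
      rw [← Finset.mul_sum, ← Finset.mul_sum, hSg, Finset.sum_comm]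
      ring
    have h4 : (W.card : ℝ) ^ s * (2 * Λ) = 2 * Λ * (W.card : ℝ) ^ s := by ring
    linarith
  have hSgM : (W.card : ℝ) ^ 2 * Sg = E * ((W.card : ℝ) ^ s * M.card) := by
    rw [hSg, Finset.sum_comm, Finset.mul_sum, Finset.sum_congr rfl step3, Finset.sum_const,
      nsmul_eq_mul]
  have htE : t * E ≤ 1 / 2 := by
    have : 2 * E ≤ (s : ℝ) ^ 2 := by rw [hEs]; nlinarith
    nlinarith
  have h6 : (3 / 2) * Sg ≤ 2 * Λ * (W.card : ℝ) ^ s := by
    have : t * (E * Sg) ≤ 1 / 2 * Sg := by
      rw [← mul_assoc]; exact mul_le_mul_of_nonneg_right htE hSg0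
    linarith
  have hNs : (0 : ℝ) < (W.card : ℝ) ^ s := pow_pos hN s
  have h7 : (3 / 2) * (E * ((W.card : ℝ) ^ s * M.card)) ≤
      2 * Λ * (W.card : ℝ) ^ s * (W.card : ℝ) ^ 2 := by
    rw [← hSgM]
    have := mul_le_mul_of_nonneg_left h6 (by positivity : (0 : ℝ) ≤ (W.card : ℝ) ^ 2)
    nlinarith
  have h8 : (3 / 2) * (E * M.card) ≤ 2 * Λ * (W.card : ℝ) ^ 2 := by
    have : (W.card : ℝ) ^ s * ((3 / 2) * (E * M.card)) ≤
        (W.card : ℝ) ^ s * (2 * Λ * (W.card : ℝ) ^ 2) := by linarith
    exact le_of_mul_le_mul_left this hNs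
  rw [← hEs]
  have h9 : 0 ≤ Λ * (W.card : ℝ) ^ 2 := by positivity
  linarith

end Pool.Agent.EGF.H47
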